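import Pool.Agent.Run7.h225.HG.Iface2

/-!
# DET (h225): the determinant of the fundamental solution
-/

set_option autoImplicit false

open Filter Topology Matrix
open Pool.Agent.Y119.HY

namespace Pool.Agent.Run7.h67.HG

variable {n : ℕ}

/-- the derivative of the determinant -/
lemma det_deriv {A : ℂ → Matrix (Fin n) (Fin n) ℂ} {A' : Matrix (Fin n) (Fin n) ℂ} {z : ℂ} (h : HD A A' z) :
    HasDerivAt (fun w => (A w).det) ((A' * (A z).adjugate).trace) z := by
  have h1 : HasDerivAt (fun w => ∑ σ : Equiv.Perm (Fin n), ((Equiv.Perm.sign σ : ℤ) : ℂ) * ∏ i, A w (σ i) i)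
      (∑ σ : Equiv.Perm (Fin n), ((Equiv.Perm.sign σ : ℤ) : ℂ) *
        ∑ i, (∏ j ∈ Finset.univ.erase i, A z (σ j) j) • A' (σ i) i) z :=
    HasDerivAt.fun_sum fun σ _ => (HasDerivAt.fun_finsetProd fun i _ => h (σ i) i).const_mul _
  have e1 : (fun w => (A w).det) = fun w => ∑ σ : Equiv.Perm (Fin n), ((Equiv.Perm.sign σ : ℤ) : ℂ) * ∏ i, A w (σ i) i := by
    funext w
    rw [Matrix.det_apply']
  rw [e1]
  refine h1.congr_deriv ?_
  rw [Matrix.trace_mul_comm]
  have e2 : ∀ i : Fin n, ((A z).adjugate * A') i i = ∑ σ : Equiv.Perm (Fin n), ((Equiv.Perm.sign σ : ℤ) : ℂ) *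
      ((∏ j ∈ Finset.univ.erase i, A z (σ j) j) • A' (σ i) i) := by
    intro i
    have h2 : ((A z).adjugate * A') i i = ((A z).adjugate *ᵥ (fun k => A' k i)) i := rfl
    rw [h2, ← Matrix.cramer_eq_adjugate_mulVec, Matrix.cramer_apply, Matrix.det_apply']
    refine Finset.sum_congr rfl fun σ _ => ?_
    congr 1
    rw [← Finset.mul_prod_erase Finset.univ _ (Finset.mem_univ i), Matrix.updateCol_self, smul_eq_mul, mul_comm]
    congr 1
    refine Finset.prod_congr rfl fun j hj => ?_
    rw [Matrix.updateCol_ne (Finset.ne_of_mem_erase hj)]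
  unfold Matrix.trace
  simp only [Matrix.diag_apply, e2]
  rw [Finset.sum_comm]
  refine Finset.sum_congr rfl fun σ _ => ?_
  rw [Finset.mul_sum]

lemma det_ode {A : ℂ → Matrix (Fin n) (Fin n) ℂ} {G : Matrix (Fin n) (Fin n) ℂ} {z : ℂ} (h : HD A (G * A z) z) :
    HasDerivAt (fun w => (A w).det) (G.trace * (A z).det) z := by
  refine (det_deriv h).congr_deriv ?_
  rw [Matrix.mul_assoc, Matrix.mul_adjugate, Matrix.mul_smul, Matrix.mul_one, Matrix.trace_smul, smul_eq_mul, mul_comm]

lemma trace_nil {N : Matrix (Fin n) (Fin n) ℂ} (hN : N ^ n = 0) : N.trace = 0 :=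
  (Matrix.isNilpotent_trace_of_isNilpotent ⟨n, hN⟩).eq_zero

lemma det_E {N : Matrix (Fin n) (Fin n) ℂ} (hN : N ^ n = 0) (c : ℂ) : (E N c).det = 1 := by
  have h1 : ∀ z, HasDerivAt (fun w => (E N w).det) 0 z := fun z => by
    refine (det_ode (E_HD hN z)).congr_deriv ?_
    rw [trace_nil hN, zero_mul]
  have h2 := is_const_of_deriv_eq_zero (fun z => (h1 z).differentiableAt) (fun z => (h1 z).deriv) c 0
  rw [h2, E_zero hN, Matrix.det_one]

theorem t_DET : Run7.h225.HG.S_DET := by
  intro n N0 N1 H hN hH x hx hx1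
  refine ⟨?_, fun c => det_E hN c⟩
  -- the function `det Y * exp (tr N1 log (1 - z))` is constant on the lens
  set F : ℂ → ℂ := fun z => (Yf N0 H z).det * Complex.exp (N1.trace * Complex.log (1 - z)) with hF
  have hd : ∀ z ∈ Lens, HasDerivAt F 0 z := by
    intro z hz
    have hz' := symm_Lens hz
    have h1 := det_ode (Yf_ode hH hN (mem_Lens.1 hz).1 (slit_Lens hz))
    have hne : (1 - z) ≠ 0 := Complex.slitPlane_ne_zero (slit_Lens hz')
    have h2 : HasDerivAt (fun w : ℂ => 1 - w) (-1) z := by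
      simpa using (hasDerivAt_id z).const_sub 1
    have h3 : HasDerivAt (fun w : ℂ => Complex.log (1 - w)) (-1 / (1 - z)) z := h2.clog (slit_Lens hz')
    have h4 := (h3.const_mul N1.trace).cexp
    refine (h1.mul h4).congr_deriv ?_
    have h5 : (Gm N0 N1 z).trace = 1 / (1 - z) * N1.trace := by
      unfold Gm
      rw [Matrix.trace_add, Matrix.trace_smul, Matrix.trace_smul, trace_nil hN, smul_zero, zero_add, smul_eq_mul]
    rw [h5]
    ring
  have hc : ∀ z ∈ Lens, ∀ w ∈ Lens, F z = F w := fun z hz w hw =>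
    isOpen_Lens.is_const_of_deriv_eq_zero preconn_Lens
      (fun x hx => (hd x hx).differentiableAt.differentiableWithinAt) (fun x hx => (hd x hx).deriv) hz hw
  have hreal : ∀ y : ℝ, 0 < y → y < 1 → F y = (Hf H y).det * Complex.exp (N1.trace * Complex.log (1 - (y : ℂ))) := by
    intro y _ _
    rw [hF]
    simp only
    unfold Yf
    rw [Matrix.det_mul, det_E hN, mul_one]
  -- the limit at `0`
  have hcont : ContinuousAt (fun z : ℂ => (Hf H z).det) 0 := by
    have h1 : (fun z : ℂ => (Hf H z).det) = fun w => ∑ σ : Equiv.Perm (Fin n), ((Equiv.Perm.sign σ : ℤ) : ℂ) *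
        ∏ i, Hf H w (σ i) i := by
      funext w
      rw [Matrix.det_apply']
    rw [h1]
    refine tendsto_finsetSum _ fun σ _ => Tendsto.const_mul _ ?_
    refine tendsto_finsetProd _ fun i _ => ?_
    exact (Hf_an hH hN (σ i) i 0 (Metric.mem_ball_self one_pos)).continuousAt
  have hcont2 : ContinuousAt (fun z : ℂ => Complex.exp (N1.trace * Complex.log (1 - z))) 0 := by
    have h1 : ContinuousAt (fun z : ℂ => Complex.log (1 - z)) 0 := by
      refine ContinuousAt.clog (by fun_prop) ?_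
      rw [sub_zero]
      exact Complex.one_mem_slitPlane
    exact (h1.const_mul _).cexp
  have hlim : Tendsto (fun y : ℝ => F y) (𝓝[>] 0) (𝓝 1) := by
    have h1 : Tendsto (fun y : ℝ => (y : ℂ)) (𝓝[>] 0) (𝓝 0) := by
      have := (Complex.continuous_ofReal.tendsto 0)
      rw [Complex.ofReal_zero] at this
      exact this.mono_left nhdsWithin_le_nhds
    have h2 := (hcont.mul hcont2).tendsto.comp h1
    have h3 : (Hf H 0).det * Complex.exp (N1.trace * Complex.log (1 - 0)) = 1 := by
      rw [Hf_zero hH, Matrix.det_one, sub_zero, Complex.log_one, mul_zero, Complex.exp_zero, mul_one]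
    have h2' : Tendsto (((fun z => (Hf H z).det) * fun z => Complex.exp (N1.trace * Complex.log (1 - z))) ∘
        fun y : ℝ => (y : ℂ)) (𝓝[>] 0) (𝓝 1) := by
      have e : (((fun z => (Hf H z).det) * fun z => Complex.exp (N1.trace * Complex.log (1 - z))) 0) = 1 := h3
      rw [e] at h2
      exact h2
    refine h2'.congr' ?_
    have h4 : ∀ᶠ y : ℝ in 𝓝[>] 0, y < 1 := tendsto_nhdsWithin_of_tendsto_nhds tendsto_id (gt_mem_nhds one_pos)
    filter_upwards [h4, self_mem_nhdsWithin] with y hy hy0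
    exact (hreal y hy0 hy).symm
  have hval : F x = 1 := by
    have h1 : Tendsto (fun _ : ℝ => F x) (𝓝[>] (0 : ℝ)) (𝓝 1) := by
      refine hlim.congr' ?_
      have h4 : ∀ᶠ y : ℝ in 𝓝[>] 0, y < 1 := tendsto_nhdsWithin_of_tendsto_nhds tendsto_id (gt_mem_nhds one_pos)
      filter_upwards [h4, self_mem_nhdsWithin] with y hy hy0
      exact hc _ (real_mem_Lens hy0 hy) _ (real_mem_Lens hx hx1)
    exact tendsto_nhds_unique tendsto_const_nhds h1
  have h5 : Complex.log (1 - (x : ℂ)) = ((Real.log (1 - x) : ℝ) : ℂ) := by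
    rw [Complex.ofReal_log (by linarith)]
    push_cast
    rfl
  rw [hF] at hval
  simp only at hval
  rw [h5] at hval
  rw [neg_mul, Complex.exp_neg]
  exact eq_inv_of_mul_eq_one_left hval

end Pool.Agent.Run7.h67.HG
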